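import Pool.Agent.Helper89.GW.Stmts

/-!
# Module DEP
Lipschitz dependence on the initial value near a given solution.
-/

set_option autoImplicit false

open scoped ContDiff Topology NNReal
open Set Filter

namespace GW

lemma dep_cont {F : Type} [NormedAddCommGroup F] [NormedSpace ℝ F] {X : ℝ × F → F} {c : ℝ → F}
    (hc : Sol X c) : ContinuousOn c (Icc 0 1) := fun s hs => (hc s hs).continuousWithinAt

lemma dep_deriv {F : Type} [NormedAddCommGroup F] [NormedSpace ℝ F] {X : ℝ × F → F} {c : ℝ → F}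
    (hc : Sol X c) (s : ℝ) (h0 : 0 ≤ s) (h1 : s < 1) : HasDerivWithinAt c (X (s, c s)) (Ici s) s :=
  (hc s ⟨h0, h1.le⟩).mono_of_mem_nhdsWithin (Icc_mem_nhdsGE_of_mem ⟨h0, h1⟩)

theorem st_DEP : ST_DEP := by
  intro F _ _ _ X hX c hc
  have hcc := dep_cont hc
  obtain ⟨B, hB⟩ := isCompact_Icc.exists_bound_of_continuousOn hcc
  -- Lipschitz constant
  obtain ⟨k, hk⟩ := (hX.contDiffOn (s := Icc (0 : ℝ) 1 ×ˢ Metric.closedBall (0 : F) (B + 1)))
    |>.exists_lipschitzOnWith (by simp) ((convex_Icc _ _).prod (convex_closedBall _ _))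
      (isCompact_Icc.prod (isCompact_closedBall _ _))
  have hv : ∀ t ∈ Icc (0 : ℝ) 1,
      LipschitzOnWith k (fun x => X (t, x)) (Metric.closedBall (0 : F) (B + 1)) := by
    intro t ht x hx y hy
    have := hk (mk_mem_prod ht hx) (mk_mem_prod ht hy)
    simpa [Prod.edist_eq] using this
  have hcs : ∀ t ∈ Icc (0 : ℝ) 1, c t ∈ Metric.closedBall (0 : F) (B + 1) := by
    intro t ht
    rw [mem_closedBall_zero_iff]
    linarith [hB t ht]
  have hC0 : 0 < Real.exp k := Real.exp_pos _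
  refine ⟨1 / (2 * Real.exp k), by positivity, Real.exp k, hC0, ?_⟩
  intro d hd hd0
  have hdc := dep_cont hd
  have hC1 : 1 ≤ Real.exp k := Real.one_le_exp k.2
  -- Gronwall up to time `T` provided the curves stay at distance less than one
  have key : ∀ T ∈ Icc (0 : ℝ) 1, (∀ t ∈ Ico 0 T, ‖d t - c t‖ < 1) →
      ∀ t ∈ Icc 0 T, ‖d t - c t‖ ≤ Real.exp k * ‖d 0 - c 0‖ := by
    intro T hT hlt t ht
    have hsub : Icc 0 T ⊆ Icc (0 : ℝ) 1 := Icc_subset_Icc_right hT.2
    have h := dist_le_of_trajectories_ODE_of_mem (v := fun t x => X (t, x))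
      (s := fun _ => Metric.closedBall (0 : F) (B + 1)) (K := k) (f := d) (g := c) (a := 0)
      (b := T) (δ := dist (d 0) (c 0))
      (fun t ht => hv t ⟨ht.1, ht.2.le.trans hT.2⟩) (hdc.mono hsub)
      (fun t ht => dep_deriv hd t ht.1 (ht.2.trans_le hT.2))
      (fun t ht => by
        rw [mem_closedBall_zero_iff]
        have h1 := hlt t ht
        have h2 := hB t ⟨ht.1, ht.2.le.trans hT.2⟩
        have h3 : ‖d t‖ ≤ ‖d t - c t‖ + ‖c t‖ := by
          have := norm_add_le (d t - c t) (c t)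
          rwa [sub_add_cancel] at this
        linarith)
      (hcc.mono hsub) (fun t ht => dep_deriv hc t ht.1 (ht.2.trans_le hT.2))
      (fun t ht => hcs t ⟨ht.1, ht.2.le.trans hT.2⟩) le_rfl t ht
    rw [dist_eq_norm, dist_eq_norm, sub_zero] at h
    have h1 : Real.exp (k * t) ≤ Real.exp k := by
      rw [Real.exp_le_exp]
      have : (0 : ℝ) ≤ k := k.2
      nlinarith [ht.2, hT.2]
    calc ‖d t - c t‖ ≤ ‖d 0 - c 0‖ * Real.exp (k * t) := h
      _ ≤ ‖d 0 - c 0‖ * Real.exp k := mul_le_mul_of_nonneg_left h1 (norm_nonneg _)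
      _ = Real.exp k * ‖d 0 - c 0‖ := mul_comm _ _
  have hsmall : Real.exp k * ‖d 0 - c 0‖ < 1 := by
    have h1 : Real.exp k * ‖d 0 - c 0‖ < Real.exp k * (1 / (2 * Real.exp k)) :=
      mul_lt_mul_of_pos_left hd0 hC0
    have h2 : Real.exp k * (1 / (2 * Real.exp k)) = 1 / 2 := by field_simp
    rw [h2] at h1
    linarith
  -- the first time at which the distance is at least one
  have hall : ∀ t ∈ Icc (0 : ℝ) 1, ‖d t - c t‖ < 1 := by
    by_contra hcon
    push Not at hcon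
    obtain ⟨t, ht, ht1⟩ := hcon
    have hcl : IsClosed (Icc (0 : ℝ) 1 ∩ (fun s => ‖d s - c s‖) ⁻¹' Ici 1) :=
      ((hdc.sub hcc).norm).preimage_isClosed_of_isClosed isClosed_Icc isClosed_Ici
    have hcomp : IsCompact (Icc (0 : ℝ) 1 ∩ (fun s => ‖d s - c s‖) ⁻¹' Ici 1) :=
      isCompact_Icc.of_isClosed_subset hcl inter_subset_left
    obtain ⟨T, ⟨hT, hT1⟩, hTmin⟩ := hcomp.exists_isLeast ⟨t, ht, ht1⟩
    have hT1' : 1 ≤ ‖d T - c T‖ := hT1
    have h1 := key T hT (fun s hs => by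
      by_contra h
      push Not at h
      have := hTmin ⟨⟨hs.1, hs.2.le.trans hT.2⟩, h⟩
      linarith [hs.2]) T ⟨hT.1, le_refl _⟩
    linarith
  intro s hs
  exact key 1 ⟨zero_le_one, le_refl _⟩ (fun t ht => hall t ⟨ht.1, ht.2.le⟩) s hs

end GW
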