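import Pool.Agent.Helper89.GW.Stmts

/-!
# Module LINO
Linear differential equations with continuous coefficients have solutions on `[0,1]`.
-/

set_option autoImplicit false

open scoped ContDiff Topology NNReal
open Set Filter

namespace GW

theorem st_LINO : ST_LINO := by
  intro F _ _ _ A hA x₀
  have : CompleteSpace F := FiniteDimensional.complete ℝ F
  -- bound for the coefficients
  obtain ⟨k₀, hk₀⟩ := isCompact_Icc.exists_bound_of_continuousOn hA
  set k : ℝ≥0 := ⟨max k₀ 0, le_max_right _ _⟩ with hkdef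
  have hk : ∀ s ∈ Icc (0 : ℝ) 1, ‖A s‖ ≤ (k : ℝ) := fun s hs => (hk₀ s hs).trans (le_max_left _ _)
  have hk0 : (0 : ℝ) ≤ k := k.2
  -- the cut off identity
  set R : ℝ := ‖x₀‖ * Real.exp k + 1 with hR
  have hR0 : 0 < R := by positivity
  let χ : ContDiffBump (0 : F) := ⟨R, R + 1, hR0, by linarith⟩
  have hχin : χ.rIn = R := rfl
  have hχout : χ.rOut = R + 1 := rfl
  let g : F → F := fun x => χ x • x
  have hgs : ContDiff ℝ 1 g := χ.contDiff.smul contDiff_id
  have hgc : HasCompactSupport g := χ.hasCompactSupport.smul_right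
  obtain ⟨C, hC⟩ := ContDiff.lipschitzWith_of_hasCompactSupport hgc hgs one_ne_zero
  have hg1 : ∀ x, ‖g x‖ ≤ ‖x‖ := by
    intro x
    show ‖χ x • x‖ ≤ ‖x‖
    rw [norm_smul, Real.norm_of_nonneg χ.nonneg]
    calc χ x * ‖x‖ ≤ 1 * ‖x‖ := mul_le_mul_of_nonneg_right χ.le_one (norm_nonneg _)
      _ = ‖x‖ := one_mul _
  have hg2 : ∀ x, ‖g x‖ ≤ R + 1 := by
    intro x
    by_cases hx : ‖x‖ ≤ R + 1
    · exact (hg1 x).trans hx
    · have h0 : χ x = 0 := χ.zero_of_le_dist (by rw [hχout, dist_zero_right]; linarith)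
      show ‖χ x • x‖ ≤ R + 1
      rw [h0, zero_smul, norm_zero]
      linarith
  let R1 : ℝ≥0 := ⟨R + 1, by linarith⟩
  have hpl : IsPicardLindelof (fun s x => A s (g x)) (tmin := 0) (tmax := 1)
      (⟨0, by norm_num, by norm_num⟩ : Icc (0 : ℝ) 1) x₀ (k * R1) 0 (k * R1) (k * C) := by
    refine ⟨?_, ?_, ?_, ?_⟩
    · intro t ht
      have h1 : LipschitzWith k (A t) := by
        have h2 := (A t).lipschitz
        refine h2.weaken ?_
        have := hk t ht
        exact_mod_cast this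
      exact (h1.comp hC).lipschitzOnWith
    · intro x _
      exact hA.clm_apply continuousOn_const
    · intro t ht x _
      show ‖A t (g x)‖ ≤ ((k * R1 : ℝ≥0) : ℝ)
      calc ‖A t (g x)‖ ≤ ‖A t‖ * ‖g x‖ := (A t).le_opNorm _
        _ ≤ k * (R + 1) := mul_le_mul (hk t ht) (hg2 x) (norm_nonneg _) hk0
        _ = ((k * R1 : ℝ≥0) : ℝ) := by push_cast; rfl
    · simp
  obtain ⟨c, hc0, hc⟩ := hpl.exists_eq_forall_mem_Icc_hasDerivWithinAt₀
  refine ⟨c, hc0, ?_⟩
  have hcont : ContinuousOn c (Icc 0 1) := fun s hs => (hc s hs).continuousWithinAt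
  have hgron : ∀ s ∈ Icc (0 : ℝ) 1, ‖c s‖ ≤ gronwallBound ‖x₀‖ k 0 (s - 0) := by
    refine norm_le_gronwallBound_of_norm_deriv_right_le (f' := fun s => A s (g (c s))) hcont ?_
      (le_of_eq (by rw [← hc0])) ?_
    · intro s hs
      refine (hc s ⟨hs.1, hs.2.le⟩).mono_of_mem_nhdsWithin ?_
      exact Icc_mem_nhdsGE_of_mem hs
    · intro s hs
      rw [add_zero]
      calc ‖A s (g (c s))‖ ≤ ‖A s‖ * ‖g (c s)‖ := (A s).le_opNorm _
        _ ≤ k * ‖c s‖ := mul_le_mul (hk s ⟨hs.1, hs.2.le⟩) (hg1 _) (norm_nonneg _) hk0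
  intro s hs
  have hbound : ‖c s‖ ≤ R := by
    have h1 := hgron s hs
    rw [sub_zero, gronwallBound_ε0] at h1
    have h2 : Real.exp (k * s) ≤ Real.exp k := by
      rw [Real.exp_le_exp]
      nlinarith [hs.2, hk0]
    have h3 : ‖x₀‖ * Real.exp (k * s) ≤ ‖x₀‖ * Real.exp k :=
      mul_le_mul_of_nonneg_left h2 (norm_nonneg _)
    linarith
  have hone : χ (c s) = 1 := χ.one_of_mem_closedBall (by
    rw [hχin, mem_closedBall_zero_iff]; exact hbound)
  have h := hc s hs
  have hge : g (c s) = c s := by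
    show χ (c s) • c s = c s
    rw [hone, one_smul]
  rw [hge] at h
  exact h

end GW
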